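import Mathlib

/-!
# The least number of irreducible numerical semigroups with a given intersection is unbounded

For all `L ≥ 1` and `F ≥ 4 L - 3` the numerical semigroup
`S = {0} ∪ {x : F / 2 < x ≤ F - L} ∪ {x : x > F}` with Frobenius number `F` is the intersection of
`L` irreducible numerical semigroups and not the intersection of fewer.

Proof of the lower bound.  Let `T ⊇ S` be irreducible and suppose that two elements `g < g'` of
`(F - L, F]` are not in `T`.  Let `f` be the Frobenius number of `T`; then `f` is in `(F - L, F]`.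
As `T` is irreducible, the semigroup generated by `T` and `g` contains `f`, which gives
`a = f - g ∈ T`, `1 ≤ a < L`.  Some `f - j a` with `j ≥ 1` is in `(F / 2, F - L]`, so it is in `S`, and
`f = (f - j a) + j a` is in `T`, a contradiction.  So every `T` misses at most one of the `L` gaps in
`(F - L, F]`.
-/

set_option autoImplicit false

namespace Pool.Agent.Results.MP_b58a5b_nt.EveryValueOccurs

/-- A numerical semigroup: a set of natural numbers which contains `0`, is closed under addition
(`AddSubmonoid ℕ`) and has a finite complement. -/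
def IsNumerical (S : AddSubmonoid ℕ) : Prop := ((S : Set ℕ)ᶜ).Finite

/-- An irreducible numerical semigroup: it is not the intersection of two numerical semigroups which
contain it properly. -/
def IsIrreducible (S : AddSubmonoid ℕ) : Prop :=
  IsNumerical S ∧ ¬ ∃ S₁ S₂ : AddSubmonoid ℕ, IsNumerical S₁ ∧ IsNumerical S₂ ∧
    (S : Set ℕ) ⊂ S₁ ∧ (S : Set ℕ) ⊂ S₂ ∧ (S : Set ℕ) = (S₁ : Set ℕ) ∩ S₂

/-- `S` is the intersection of `k` irreducible numerical semigroups. -/
def IsIntersection (S : AddSubmonoid ℕ) (k : ℕ) : Prop :=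
  ∃ T : Fin k → AddSubmonoid ℕ, (∀ i, IsIrreducible (T i)) ∧ (S : Set ℕ) = ⋂ i, (T i : Set ℕ)

/-- `κ(S)`: the least `k ≥ 1` such that `S` is the intersection of `k` irreducible numerical
semigroups. -/
noncomputable def kappa (S : AddSubmonoid ℕ) : ℕ := sInf {k : ℕ | 1 ≤ k ∧ IsIntersection S k}

/-- `F` is the Frobenius number of `S`: the largest natural number not in `S`. -/
def IsFrobenius (S : AddSubmonoid ℕ) (F : ℕ) : Prop := F ∉ S ∧ ∀ x, F < x → x ∈ S

/-- The semigroup `{0} ∪ {x : F / 2 < x ≤ F - L} ∪ {x : x > F}`. -/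
def Sg (F L : ℕ) : AddSubmonoid ℕ where
  carrier := {x | x = 0 ∨ (F < 2 * x ∧ x + L ≤ F) ∨ F < x}
  zero_mem' := Or.inl rfl
  add_mem' := by
    intro a b ha hb
    simp only [Set.mem_ofPred_eq] at ha hb ⊢
    omega

lemma mem_Sg {F L x : ℕ} : x ∈ Sg F L ↔ x = 0 ∨ (F < 2 * x ∧ x + L ≤ F) ∨ F < x := Iff.rfl

lemma isNumerical_of_le {S T : AddSubmonoid ℕ} (hS : IsNumerical S) (h : S ≤ T) :
    IsNumerical T := by
  refine Set.Finite.subset hS ?_
  intro x hx hxS
  exact hx (h hxS)

lemma Sg_numerical (F L : ℕ) : IsNumerical (Sg F L) := by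
  refine Set.Finite.subset (Set.finite_Iic F) ?_
  intro x hx
  rw [Set.mem_compl_iff, SetLike.mem_coe, mem_Sg] at hx
  rw [Set.mem_Iic]
  omega

/-- Every numerical semigroup which does not contain `g` is contained in an irreducible one which
does not contain `g`. -/
lemma exists_irreducible {S : AddSubmonoid ℕ} (hS : IsNumerical S) {g : ℕ} (hg : g ∉ S) :
    ∃ T : AddSubmonoid ℕ, IsIrreducible T ∧ S ≤ T ∧ g ∉ T := by
  obtain ⟨T, ⟨hST, hgT⟩, hmin⟩ := WellFounded.has_min
    (measure fun T : AddSubmonoid ℕ => ((T : Set ℕ)ᶜ).ncard).wf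
    {T : AddSubmonoid ℕ | S ≤ T ∧ g ∉ T} ⟨S, le_refl S, hg⟩
  have hT : IsNumerical T := isNumerical_of_le hS hST
  have key : ∀ S₁ : AddSubmonoid ℕ, (T : Set ℕ) ⊂ S₁ → g ∈ S₁ := by
    intro S₁ h1
    by_contra h2
    have h3 := hmin S₁ ⟨fun x hx => h1.1 (hST hx), h2⟩
    apply h3
    show ((S₁ : Set ℕ)ᶜ).ncard < ((T : Set ℕ)ᶜ).ncard
    refine Set.ncard_lt_ncard ?_ hT
    exact compl_lt_compl_iff_lt.2 h1
  refine ⟨T, ⟨hT, ?_⟩, hST, hgT⟩
  rintro ⟨S₁, S₂, -, -, h1, h2, h3⟩
  apply hgT
  rw [← SetLike.mem_coe, h3]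
  exact ⟨key S₁ h1, key S₂ h2⟩

/-- An irreducible `T` containing `Sg F L` misses at most one element of `(F - L, F]`. -/
lemma misses_one {F L : ℕ} (hL : 1 ≤ L) (hF : 4 * L ≤ F + 3) {T : AddSubmonoid ℕ}
    (hT : IsIrreducible T) (hST : Sg F L ≤ T) {g g' : ℕ} (h1 : F < g + L) (h2 : g < g')
    (h3 : g' ≤ F) (hg : g ∉ T) (hg' : g' ∉ T) : False := by
  obtain ⟨hTn, hTi⟩ := hT
  have hne : ((T : Set ℕ)ᶜ).Nonempty := ⟨g', hg'⟩
  obtain ⟨f, hf, hfmax⟩ := Set.exists_max_image _ id hTn hne
  have hfmax' : ∀ x, f < x → x ∈ T := by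
    intro x hx
    by_contra hxT
    have := hfmax x hxT
    simp only [id] at this
    omega
  have hfg : g' ≤ f := hfmax g' hg'
  have hfT : f ∉ T := hf
  have hfF : f ≤ F := by
    by_contra h
    exact hfT (hST (mem_Sg.2 (Or.inr (Or.inr (by omega)))))
  -- the semigroup `T ∪ {f}`
  let T' : AddSubmonoid ℕ :=
    { carrier := {x | x ∈ T ∨ x = f}
      zero_mem' := Or.inl T.zero_mem
      add_mem' := by
        intro a b ha hb
        simp only [Set.mem_ofPred_eq] at ha hb ⊢
        rcases ha with ha | ha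
        · rcases hb with hb | hb
          · exact Or.inl (T.add_mem ha hb)
          · rcases Nat.eq_zero_or_pos a with h0 | h0
            · right; omega
            · left; exact hfmax' _ (by omega)
        · rcases Nat.eq_zero_or_pos b with h0 | h0
          · right; omega
          · left; exact hfmax' _ (by omega) }
  have hT' : ∀ x, x ∈ T' ↔ x ∈ T ∨ x = f := fun x => Iff.rfl
  -- the semigroup generated by `T` and `g` contains `f`
  have hfG : f ∈ T ⊔ AddSubmonoid.closure {g} := by
    by_contra hfG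
    apply hTi
    refine ⟨T ⊔ AddSubmonoid.closure {g}, T', isNumerical_of_le hTn le_sup_left,
      isNumerical_of_le hTn (fun x hx => (hT' x).2 (Or.inl hx)), ?_, ?_, ?_⟩
    · refine ⟨fun x hx => (le_sup_left : T ≤ T ⊔ AddSubmonoid.closure {g}) hx, fun h => hg ?_⟩
      exact h ((le_sup_right : AddSubmonoid.closure {g} ≤ T ⊔ AddSubmonoid.closure {g})
        (AddSubmonoid.subset_closure rfl))
    · refine ⟨fun x hx => (hT' x).2 (Or.inl hx), fun h => hfT ?_⟩
      exact h ((hT' f).2 (Or.inr rfl))
    · ext x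
      constructor
      · intro hx
        exact ⟨(le_sup_left : T ≤ T ⊔ AddSubmonoid.closure {g}) hx, (hT' x).2 (Or.inl hx)⟩
      · rintro ⟨hx1, hx2⟩
        rcases (hT' x).1 hx2 with h | h
        · exact h
        · subst h
          exact absurd hx1 hfG
  obtain ⟨t, ht, u, hu, htu⟩ := AddSubmonoid.mem_sup.1 hfG
  obtain ⟨n, rfl⟩ := AddSubmonoid.mem_closure_singleton.1 hu
  rw [smul_eq_mul] at htu
  have hn : n = 1 := by
    rcases Nat.lt_or_ge n 2 with h | h
    · rcases Nat.eq_zero_or_pos n with h0 | h0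
      · subst h0
        exfalso
        apply hfT
        rw [← htu]
        simpa using ht
      · omega
    · exfalso
      have : 2 * g ≤ n * g := Nat.mul_le_mul_right g h
      omega
  subst hn
  have hta : t = f - g := by omega
  set a := f - g with ha
  have haT : a ∈ T := hta ▸ ht
  have ha1 : 1 ≤ a := by omega
  have haL : a + 1 ≤ L := by omega
  -- the multiple of `a`
  set r := f + L - F - 1 with hr
  set q := r / a + 1 with hq
  have hq1 : r < q * a := by
    have := Nat.lt_div_mul_add (a := r) (b := a) (by omega)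
    rw [hq, Nat.add_mul, one_mul]
    exact this
  have hq2 : q * a ≤ r + a := by
    rw [hq, Nat.add_mul, one_mul]
    have := Nat.div_mul_le_self r a
    omega
  have hs : f - q * a ∈ Sg F L := mem_Sg.2 (Or.inr (Or.inl ⟨by omega, by omega⟩))
  apply hfT
  have h4 : f = (f - q * a) + q • a := by
    rw [smul_eq_mul]; omega
  rw [h4]
  exact T.add_mem (hST hs) (T.nsmul_mem haT q)

/-- `Sg F L` is the intersection of `L` irreducible numerical semigroups. -/
lemma upper {F L : ℕ} (hL : 1 ≤ L) (hF : 4 * L ≤ F + 3) : IsIntersection (Sg F L) L := by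
  have hgap : ∀ i : Fin L, F - (i : ℕ) ∉ Sg F L := by
    intro i h
    have := i.2
    rw [mem_Sg] at h
    omega
  choose T hT1 hT2 hT3 using fun i : Fin L => exists_irreducible (Sg_numerical F L) (hgap i)
  refine ⟨T, hT1, ?_⟩
  ext x
  rw [Set.mem_iInter]
  constructor
  · intro hx i
    exact hT2 i hx
  · intro hx
    by_contra hxS
    rw [SetLike.mem_coe, mem_Sg] at hxS
    by_cases h1 : F < x + L
    · -- `x` is one of the gaps in `(F - L, F]`
      have h2 := hT3 ⟨F - x, by omega⟩
      apply h2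
      have h3 : F - (F - x) = x := by omega
      simp only [h3]
      exact hx _
    · by_cases h2 : 2 * x = F
      · have h3 := hT3 ⟨0, by omega⟩
        apply h3
        simp only [Nat.sub_zero]
        rw [← h2, two_mul]
        exact (T _).add_mem (hx _) (hx _)
      · by_cases h3 : x < L
        · have h4 := hT3 ⟨L - x, by omega⟩
          apply h4
          have h5 : F - (L - x) = x + (F - L) := by omega
          simp only [h5]
          exact (T _).add_mem (hx _) (hT2 _ (mem_Sg.2 (Or.inr (Or.inl ⟨by omega, by omega⟩))))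
        · have h4 := hT3 ⟨0, by omega⟩
          apply h4
          have h5 : F - 0 = x + (F - x) := by omega
          simp only [h5]
          exact (T _).add_mem (hx _) (hT2 _ (mem_Sg.2 (Or.inr (Or.inl ⟨by omega, by omega⟩))))

/-- `Sg F L` is not the intersection of fewer than `L` irreducible numerical semigroups. -/
lemma lower {F L : ℕ} (hL : 1 ≤ L) (hF : 4 * L ≤ F + 3) {k : ℕ}
    (h : IsIntersection (Sg F L) k) : L ≤ k := by
  obtain ⟨T, hT, hS⟩ := h
  have hST : ∀ j, Sg F L ≤ T j := by
    intro j x hx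
    rw [← SetLike.mem_coe, hS, Set.mem_iInter] at hx
    exact hx j
  have hex : ∀ i : Fin L, ∃ j : Fin k, F - (i : ℕ) ∉ T j := by
    intro i
    have := i.2
    by_contra hcon
    push Not at hcon
    have h1 : F - (i : ℕ) ∈ (Sg F L : Set ℕ) := by
      rw [hS, Set.mem_iInter]
      exact hcon
    rw [SetLike.mem_coe, mem_Sg] at h1
    omega
  choose φ hφ using hex
  have hinj : Function.Injective φ := by
    intro i i' hii
    have hi := i.2
    have hi' := i'.2
    by_contra hne
    have hne' : (i : ℕ) ≠ i' := fun h => hne (Fin.ext h)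
    rcases Nat.lt_or_gt_of_ne hne' with h | h
    · exact misses_one hL hF (hT (φ i)) (hST _) (g := F - i') (g' := F - i) (by omega) (by omega)
        (by omega) (hii ▸ hφ i') (hφ i)
    · exact misses_one hL hF (hT (φ i)) (hST _) (g := F - i) (g' := F - i') (by omega) (by omega)
        (by omega) (hφ i) (hii ▸ hφ i')
  simpa using Fintype.card_le_of_injective φ hinj

/-- **Answer to Q1: no.**  For no `N` every numerical semigroup is the intersection of at most `N`
irreducible numerical semigroups.  Indeed for all `L ≥ 1` and `F ≥ 4 L - 3` there is a numerical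
semigroup `S` with Frobenius number `F` and `κ(S) = L`. -/
theorem result :
    (¬ ∃ N : ℕ, ∀ S : AddSubmonoid ℕ, IsNumerical S → ∃ k, 1 ≤ k ∧ k ≤ N ∧ IsIntersection S k) ∧
    ∀ F L : ℕ, 1 ≤ L → 4 * L ≤ F + 3 →
      ∃ S : AddSubmonoid ℕ, IsNumerical S ∧ IsFrobenius S F ∧ IsIntersection S L ∧ kappa S = L := by
  refine ⟨?_, ?_⟩
  · rintro ⟨N, hN⟩
    obtain ⟨k, hk1, hk2, hk3⟩ := hN (Sg (4 * (N + 1)) (N + 1)) (Sg_numerical _ _)
    have := lower (by omega) (by omega) hk3
    omega
  · intro F L hL hF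
    refine ⟨Sg F L, Sg_numerical F L, ⟨?_, ?_⟩, upper hL hF, ?_⟩
    · rw [mem_Sg]
      omega
    · intro x hx
      exact mem_Sg.2 (Or.inr (Or.inr hx))
    · refine IsLeast.csInf_eq ⟨⟨hL, upper hL hF⟩, ?_⟩
      rintro k ⟨-, hk⟩
      exact lower hL hF hk

end Pool.Agent.Results.MP_b58a5b_nt.EveryValueOccurs
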